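import Mathlib

/-!
Lemmas for MP_be493c_co.TwoThreeBisection: balanced 2-colourings of cubic graphs with few
monochromatic edges.

Proof. Among the balanced colourings with the fewest monochromatic edges take one with the fewest
vertices having two neighbours of their own colour (bad vertices), and exchange the colours of
a bad vertex and of a suitable vertex of the other colour.
-/

set_option autoImplicit false

namespace Pool.Agent.H153.Bisect

open Finset

variable {V : Type} [Fintype V] [DecidableEq V] (G : SimpleGraph V) [DecidableRel G.Adj]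

/-- The indicator of u being a neighbour of w of the same colour. -/
def f (c : V → Bool) (w u : V) : ℤ := if G.Adj w u ∧ c u = c w then 1 else 0

/-- The number of neighbours of the same colour. -/
def mu (c : V → Bool) (w : V) : ℤ := ∑ u, f G c w u

def flip (c : V → Bool) (v : V) : V → Bool := Function.update c v (!c v)

def sg (b : Bool) : ℤ := if b then 1 else -1

def M (c : V → Bool) : ℤ := ∑ w, mu G c w

def D (c : V → Bool) : ℤ := ∑ w, sg (c w)

omit [Fintype V] [DecidableRel G.Adj] in
theorem flip_self (c : V → Bool) (v : V) : flip c v v = !c v := by simp [flip]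

omit [Fintype V] in
theorem flip_ne (c : V → Bool) {v w : V} (h : w ≠ v) : flip c v w = c w := by simp [flip, h]

theorem deg_sum (h3 : G.IsRegularOfDegree 3) (v : V) :
    ∑ u, (if G.Adj v u then (1:ℤ) else 0) = 3 := by
  have := h3 v
  rw [← G.card_neighborFinset_eq_degree] at this
  have e : ((G.neighborFinset v).card : ℤ) = ∑ u, (if G.Adj v u then (1:ℤ) else 0) := by
    rw [SimpleGraph.neighborFinset_eq_filter, Finset.card_filter]
    push_cast
    rfl
  rw [← e, this]; norm_num

theorem mu_flip_self (h3 : G.IsRegularOfDegree 3) (c : V → Bool) (v : V) :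
    mu G (flip c v) v = 3 - mu G c v := by
  have h := deg_sum G h3 v
  have : mu G (flip c v) v + mu G c v = 3 := by
    rw [← h, mu, mu, ← Finset.sum_add_distrib]
    apply Finset.sum_congr rfl
    intro u _
    by_cases ha : G.Adj v u
    · have hne : u ≠ v := fun e => G.loopless.irrefl v (e ▸ ha)
      simp only [f, flip_self, flip_ne c hne, ha, true_and, if_true]
      cases hu : c u <;> cases hv : c v <;> simp
    · simp [f, ha]
  linarith

theorem mu_flip_ne (c : V → Bool) {v w : V} (hw : w ≠ v) :
    mu G (flip c v) w = mu G c w +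
      (if G.Adj w v then (if c w = c v then -1 else 1) else 0) := by
  have : mu G (flip c v) w - mu G c w = (if G.Adj w v then (if c w = c v then -1 else 1) else 0) := by
    rw [mu, mu, ← Finset.sum_sub_distrib]
    rw [Finset.sum_eq_single v]
    · simp only [f, flip_self, flip_ne c hw]
      by_cases ha : G.Adj w v
      · simp only [ha, true_and, if_true]
        cases hu : c w <;> cases hv : c v <;> simp
      · simp [ha]
    · intro u _ hu
      simp only [f, flip_ne c hw, flip_ne c hu]
      ring
    · intro h; exact absurd (Finset.mem_univ v) h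
  linarith

theorem M_flip (h3 : G.IsRegularOfDegree 3) (c : V → Bool) (v : V) :
    M G (flip c v) = M G c + 6 - 4 * mu G c v := by
  have h1 : ∑ w, (mu G (flip c v) w - mu G c w) = 2 * (3 - 2 * mu G c v) := by
    have e : ∀ w, mu G (flip c v) w - mu G c w =
        (if w = v then (3 - 2 * mu G c v) else 0) +
        ((if G.Adj v w then (1:ℤ) else 0) - 2 * f G c v w) := by
      intro w
      by_cases hw : w = v
      · subst hw
        rw [mu_flip_self G h3]
        simp [f]
        ring
      · rw [mu_flip_ne G c hw]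
        simp only [hw, if_false, f]
        by_cases ha : G.Adj w v
        · have ha' := ha.symm
          simp only [ha, ha', true_and, if_true]
          by_cases hc : c w = c v
          · simp [hc]
          · simp [hc]
        · have ha' : ¬ G.Adj v w := fun t => ha t.symm
          simp [ha, ha']
    rw [Finset.sum_congr rfl (fun w _ => e w), Finset.sum_add_distrib, Finset.sum_sub_distrib,
      Finset.sum_ite_eq' , deg_sum G h3 v, ← Finset.mul_sum]
    simp only [Finset.mem_univ, if_true]
    have : ∑ w, f G c v w = mu G c v := rfl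
    rw [this]; ring
  rw [Finset.sum_sub_distrib] at h1
  have a : ∑ w, mu G (flip c v) w = M G (flip c v) := rfl
  have b : ∑ w, mu G c w = M G c := rfl
  rw [a, b] at h1
  linarith

theorem D_flip (c : V → Bool) (v : V) : D (flip c v) = D c - 2 * sg (c v) := by
  have h1 : ∑ w, (sg (flip c v w) - sg (c w)) = - 2 * sg (c v) := by
    rw [Finset.sum_eq_single v]
    · rw [flip_self]; cases c v <;> simp [sg]
    · intro u _ hu; rw [flip_ne c hu]; ring
    · intro h; exact absurd (Finset.mem_univ v) h
  rw [Finset.sum_sub_distrib] at h1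
  have a : ∑ w, sg (flip c v w) = D (flip c v) := rfl
  have b : ∑ w, sg (c w) = D c := rfl
  rw [a, b] at h1
  linarith

/-- Counting the bichromatic edges from both sides. -/
theorem signed (h3 : G.IsRegularOfDegree 3) (c : V → Bool) (hD : D c = 0) :
    ∑ w, sg (c w) * mu G c w = 0 := by
  have e : ∀ w, sg (c w) * (3 - mu G c w) =
      ∑ u, (if G.Adj w u ∧ c u ≠ c w then sg (c w) else 0) := by
    intro w
    rw [← deg_sum G h3 w, mu, ← Finset.sum_sub_distrib, Finset.mul_sum]
    apply Finset.sum_congr rfl
    intro u _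
    by_cases ha : G.Adj w u
    · by_cases hc : c u = c w
      · simp [f, ha, hc]
      · simp [f, ha, hc]
    · simp [f, ha]
  have h0 : ∑ w, ∑ u, (if G.Adj w u ∧ c u ≠ c w then sg (c w) else 0) = 0 := by
    have h1 : ∑ w, ∑ u, (if G.Adj w u ∧ c u ≠ c w then sg (c w) else 0)
        = ∑ w, ∑ u, (if G.Adj w u ∧ c u ≠ c w then sg (c u) else 0) := by
      rw [Finset.sum_comm]
      apply Finset.sum_congr rfl; intro u _
      apply Finset.sum_congr rfl; intro w _
      have : (G.Adj w u ∧ c u ≠ c w) ↔ (G.Adj u w ∧ c w ≠ c u) :=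
        ⟨fun h => ⟨h.1.symm, h.2.symm⟩, fun h => ⟨h.1.symm, h.2.symm⟩⟩
      simp only [this]
    have h2 : ∑ w, ∑ u, (if G.Adj w u ∧ c u ≠ c w then sg (c w) else 0)
        + ∑ w, ∑ u, (if G.Adj w u ∧ c u ≠ c w then sg (c u) else 0) = 0 := by
      rw [← Finset.sum_add_distrib]
      apply Finset.sum_eq_zero; intro w _
      rw [← Finset.sum_add_distrib]
      apply Finset.sum_eq_zero; intro u _
      by_cases h : G.Adj w u ∧ c u ≠ c w
      · simp only [h, if_true]
        have := h.2
        revert this
        cases c u <;> cases c w <;> simp [sg]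
      · simp only [h, if_false]; rfl
    linarith
  have h4 : ∑ w, sg (c w) * (3 - mu G c w) = 0 := by
    rw [Finset.sum_congr rfl (fun w _ => e w)]; exact h0
  have h5 : ∑ w, sg (c w) * (3 - mu G c w) = 3 * D c - ∑ w, sg (c w) * mu G c w := by
    rw [D, Finset.mul_sum, ← Finset.sum_sub_distrib]
    apply Finset.sum_congr rfl; intro w _; ring
  rw [h4, hD] at h5
  linarith

theorem mu_nonneg (c : V → Bool) (v : V) : 0 ≤ mu G c v := by
  apply Finset.sum_nonneg; intro u _; unfold f; split_ifs <;> norm_num

/-- The vertices with at least two neighbours of their own colour. -/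
def Bad (c : V → Bool) : Finset V := univ.filter (fun v => 2 ≤ mu G c v)

theorem D_swap (c : V → Bool) {v x : V} (hv : c v = true) (hx : c x = false) (hD : D c = 0) :
    D (flip (flip c v) x) = 0 := by
  have hne : x ≠ v := by intro e; rw [e, hv] at hx; exact absurd hx (by simp)
  rw [D_flip, D_flip, flip_ne c hne, hv, hx, hD]
  simp [sg]

theorem M_swap (h3 : G.IsRegularOfDegree 3) (c : V → Bool) {v x : V} (hv : c v = true)
    (hx : c x = false) :
    M G (flip (flip c v) x) = M G c + 12 - 4 * mu G c v - 4 * mu G c x -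
      (if G.Adj x v then 4 else 0) := by
  have hne : x ≠ v := by intro e; rw [e, hv] at hx; exact absurd hx (by simp)
  rw [M_flip G h3, M_flip G h3, mu_flip_ne G c hne, hv, hx]
  by_cases ha : G.Adj x v
  · simp [ha]; ring
  · simp [ha]; ring

section Main

variable (h3 : G.IsRegularOfDegree 3) (c : V → Bool) (hD : D c = 0)
  (hM : ∀ c', D c' = 0 → M G c ≤ M G c')
  (hB : ∀ c', D c' = 0 → M G c' = M G c → (Bad G c).card ≤ (Bad G c').card)
  (v0 : V) (hv0 : c v0 = true) (hb0 : 2 ≤ mu G c v0)

include h3 hD hM hv0 hb0 in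
theorem S1 (w : V) (hw : c w = false) : mu G c w ≤ 1 := by
  by_contra hcon
  have h := hM _ (D_swap c hv0 hw hD)
  rw [M_swap G h3 c hv0 hw] at h
  split_ifs at h <;> omega

include h3 hD hM hv0 hb0 in
theorem S2 : ∃ x, c x = false ∧ mu G c x = 1 := by
  by_contra hcon
  push Not at hcon
  have hz : ∀ w, c w = false → mu G c w = 0 := by
    intro w hw
    have h1 := S1 G h3 c hD hM v0 hv0 hb0 w hw
    have h2 := hcon w hw
    have h4 := mu_nonneg G c w
    omega
  have hs := signed G h3 c hD
  have hnn : ∀ w ∈ (univ : Finset V), 0 ≤ sg (c w) * mu G c w := by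
    intro w _
    cases hw : c w
    · rw [hz w hw]; simp
    · simp [sg, mu_nonneg G c w]
  have h5 := Finset.single_le_sum hnn (Finset.mem_univ v0)
  rw [hs, hv0] at h5
  simp [sg] at h5
  omega

include h3 hD hM hv0 hb0 in
theorem S3 (v : V) (hv : c v = true) : mu G c v ≤ 2 := by
  by_contra hcon
  obtain ⟨x, hx, hx1⟩ := S2 G h3 c hD hM v0 hv0 hb0
  have h := hM _ (D_swap c hv hx hD)
  rw [M_swap G h3 c hv hx] at h
  split_ifs at h <;> omega

include h3 hD hM in
theorem S4 (v w : V) (hv : c v = true) (hb : 2 ≤ mu G c v) (hw : c w = false)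
    (ha : G.Adj w v) : mu G c w = 0 := by
  by_contra hcon
  have h4 := mu_nonneg G c w
  have h := hM _ (D_swap c hv hw hD)
  rw [M_swap G h3 c hv hw] at h
  simp only [ha, if_true] at h
  omega

/-- The number of neighbours `y` of `x` in the other class having exactly one neighbour of their
own colour. -/
def g (c : V → Bool) (x : V) : ℤ :=
  ∑ y, (if G.Adj x y ∧ (c y = true ∧ mu G c y = 1) then (1:ℤ) else 0)

include h3 hD hM hv0 hb0 in
theorem S5 : ∃ x, (c x = false ∧ mu G c x = 1) ∧ g G c x ≤ 1 := by
  by_contra hcon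
  push Not at hcon
  have i1 : 2 * ∑ x, (if c x = false ∧ mu G c x = 1 then (1:ℤ) else 0) ≤
      ∑ x, (if c x = false ∧ mu G c x = 1 then g G c x else 0) := by
    rw [Finset.mul_sum]
    apply Finset.sum_le_sum
    intro x _
    by_cases h : c x = false ∧ mu G c x = 1
    · have := hcon x h
      simp only [h, and_self, if_true]; omega
    · simp only [h, if_false]; norm_num
  have i2 : ∑ x, (if c x = false ∧ mu G c x = 1 then g G c x else 0) ≤
      2 * ∑ y, (if c y = true ∧ mu G c y = 1 then (1:ℤ) else 0) := by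
    have e1 : ∑ x, (if c x = false ∧ mu G c x = 1 then g G c x else 0) =
        ∑ y, ∑ x, (if (c x = false ∧ mu G c x = 1) ∧ G.Adj x y ∧ (c y = true ∧ mu G c y = 1)
          then (1:ℤ) else 0) := by
      rw [Finset.sum_comm]
      apply Finset.sum_congr rfl; intro x _
      by_cases h : c x = false ∧ mu G c x = 1
      · simp only [h, and_self, if_true, g, true_and]
      · simp only [h, if_false, false_and, Finset.sum_const_zero]
    rw [e1, Finset.mul_sum]
    apply Finset.sum_le_sum
    intro y _
    by_cases h : c y = true ∧ mu G c y = 1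
    · have e2 : ∑ x, (if (c x = false ∧ mu G c x = 1) ∧ G.Adj x y ∧ (c y = true ∧ mu G c y = 1)
          then (1:ℤ) else 0) ≤ ∑ x, ((if G.Adj y x then (1:ℤ) else 0) - f G c y x) := by
        apply Finset.sum_le_sum
        intro x _
        by_cases ha : G.Adj x y
        · have ha' := ha.symm
          cases hx : c x
          · simp only [f, ha', h.1, hx]
            split_ifs <;> simp_all
          · simp only [f, ha', h.1, hx]
            simp
        · have ha' : ¬ G.Adj y x := fun t => ha t.symm
          simp [f, ha, ha']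
      rw [Finset.sum_sub_distrib, deg_sum G h3 y] at e2
      have e3 : ∑ x, f G c y x = mu G c y := rfl
      rw [e3] at e2
      have e5 := h.2
      have e4 : (if c y = true ∧ mu G c y = 1 then (1:ℤ) else 0) = 1 := by simp [h]
      rw [e4]
      linarith
    · simp [h]
  have i3 : ∑ w, sg (c w) * mu G c w = ∑ y, (if c y = true ∧ mu G c y = 1 then (1:ℤ) else 0) +
      2 * ∑ w, (if 2 ≤ mu G c w then (1:ℤ) else 0) -
      ∑ x, (if c x = false ∧ mu G c x = 1 then (1:ℤ) else 0) := by
    rw [Finset.mul_sum, ← Finset.sum_add_distrib, ← Finset.sum_sub_distrib]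
    apply Finset.sum_congr rfl
    intro w _
    have h4 := mu_nonneg G c w
    cases hw : c w
    · have h1 := S1 G h3 c hD hM v0 hv0 hb0 w hw
      have h5 : ¬ (2 ≤ mu G c w) := by omega
      simp only [h5, if_false, sg]
      by_cases h6 : mu G c w = 1
      · simp [h6]
      · have h7 : mu G c w = 0 := by omega
        simp [h7]
    · have h1 := S3 G h3 c hD hM v0 hv0 hb0 w hw
      by_cases h6 : mu G c w = 1
      · simp [h6, sg]
      · by_cases h7 : mu G c w = 0
        · simp [h7, sg]
        · have h8 : mu G c w = 2 := by omega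
          simp [h8, sg]
  rw [signed G h3 c hD] at i3
  have i4 : (1:ℤ) ≤ ∑ w, (if 2 ≤ mu G c w then (1:ℤ) else 0) := by
    have hnn : ∀ w ∈ (univ : Finset V), (0:ℤ) ≤ (if 2 ≤ mu G c w then (1:ℤ) else 0) := by
      intro w _; split_ifs <;> norm_num
    have := Finset.single_le_sum hnn (Finset.mem_univ v0)
    simpa [hb0] using this
  linarith

include h3 hD hM hB hv0 hb0 in
/-- Exchanging the bad vertex `v` and `x` does not lower the number of bad vertices. -/
theorem S5b (v x : V) (hv : c v = true) (hv2 : 2 ≤ mu G c v) (hx : c x = false)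
    (hx1 : mu G c x = 1) (R : Finset V) (hR : R ⊆ Bad G c)
    (hRv : ∀ r ∈ R, r = v ∨ G.Adj v r) : (R.card : ℤ) ≤ 1 + g G c x := by
  have hna : ∀ y, c y = true → 2 ≤ mu G c y → ¬ G.Adj x y := by
    intro y hy hy2 had
    have := S4 G h3 c hD hM y x hy hy2 hx had
    omega
  have hv3 := S3 G h3 c hD hM v0 hv0 hb0 v hv
  have hmu2 : mu G c v = 2 := by omega
  have hMeq : M G (flip (flip c v) x) = M G c := by
    rw [M_swap G h3 c hv hx, hmu2, hx1]
    simp [hna v hv hv2]
    ring
  have hBle := hB _ (D_swap c hv hx hD) hMeq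
  have hxv : x ≠ v := by intro e; rw [e, hv] at hx; exact absurd hx (by simp)
  have hsub : Bad G (flip (flip c v) x) ⊆
      insert x ((Bad G c \ R) ∪
        univ.filter (fun y => G.Adj x y ∧ (c y = true ∧ mu G c y = 1))) := by
    intro w hw
    rw [Bad, Finset.mem_filter] at hw
    have hw2 := hw.2
    by_cases hwx : w = x
    · simp [hwx]
    by_cases hwv : w = v
    · exfalso
      rw [hwv] at hw2
      rw [mu_flip_ne G _ (Ne.symm hxv), mu_flip_self G h3 c v, hmu2] at hw2
      have : ¬ G.Adj v x := fun t => hna v hv hv2 t.symm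
      simp [this] at hw2
    rw [mu_flip_ne G _ hwx, mu_flip_ne G c hwv, flip_ne c hwv, flip_ne c hxv, hv, hx] at hw2
    rw [Finset.mem_insert, Finset.mem_union, Finset.mem_sdiff, Finset.mem_filter]
    right
    cases hcw : c w
    · exfalso
      have h1 := S1 G h3 c hD hM v0 hv0 hb0 w hcw
      rw [hcw] at hw2
      by_cases hwv' : G.Adj w v
      · have := S4 G h3 c hD hM v w hv hv2 hcw hwv'
        rw [this] at hw2
        simp only [hwv', if_true] at hw2
        split_ifs at hw2 <;> simp_all
      · simp only [hwv', if_false] at hw2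
        split_ifs at hw2 <;> simp_all <;> omega
    · rw [hcw] at hw2
      by_cases hw2' : 2 ≤ mu G c w
      · left
        have hnx : ¬ G.Adj w x := fun t => hna w hcw hw2' t.symm
        have hw3 := S3 G h3 c hD hM v0 hv0 hb0 w hcw
        have hnv : ¬ G.Adj w v := by
          intro t
          simp only [hnx, t, if_true, if_false] at hw2
          simp at hw2
          omega
        refine ⟨by simp [Bad, hw2'], ?_⟩
        intro hwR
        rcases hRv w hwR with h | h
        · exact hwv h
        · exact hnv h.symm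
      · right
        have h4 := mu_nonneg G c w
        by_cases hwx' : G.Adj w x
        · refine ⟨Finset.mem_univ _, hwx'.symm, rfl, ?_⟩
          simp only [hwx', if_true] at hw2
          split_ifs at hw2 <;> simp_all <;> omega
        · exfalso
          simp only [hwx', if_false] at hw2
          split_ifs at hw2 <;> simp_all <;> omega
  have hc1 := Finset.card_le_card hsub
  have hc2 := Finset.card_insert_le x ((Bad G c \ R) ∪
        univ.filter (fun y => G.Adj x y ∧ (c y = true ∧ mu G c y = 1)))
  have hc3 := Finset.card_union_le (Bad G c \ R)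
        (univ.filter (fun y => G.Adj x y ∧ (c y = true ∧ mu G c y = 1)))
  have hc4 : ((univ.filter (fun y => G.Adj x y ∧ (c y = true ∧ mu G c y = 1))).card : ℤ)
        = g G c x := by
      rw [g, Finset.card_filter]; push_cast; rfl
  have hc5 := Finset.card_sdiff_add_card_eq_card hR
  have hc6 : (Bad G c).card ≤ (Bad G c \ R).card +
      (univ.filter (fun y => G.Adj x y ∧ (c y = true ∧ mu G c y = 1))).card + 1 := by omega
  have hc7 : ((Bad G c).card : ℤ) ≤ (Bad G c \ R).card + g G c x + 1 := by
    rw [← hc4]; exact_mod_cast hc6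
  have hc8 : ((Bad G c \ R).card : ℤ) + R.card = (Bad G c).card := by exact_mod_cast hc5
  linarith

include h3 hD hM hB hv0 hb0 in
theorem S6 (v a b : V) (hv : c v = true) (ha : G.Adj v a) (hb : G.Adj v b) (hab : a ≠ b)
    (hca : c a = true) (hcb : c b = true) (hv2 : 2 ≤ mu G c v) (ha2 : 2 ≤ mu G c a)
    (hb2 : 2 ≤ mu G c b) : False := by
  obtain ⟨x, ⟨hx, hx1⟩, hg⟩ := S5 G h3 c hD hM v0 hv0 hb0
  have hsub3 : ({v, a, b} : Finset V) ⊆ Bad G c := by
    intro t ht
    simp only [Finset.mem_insert, Finset.mem_singleton] at ht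
    rcases ht with rfl | rfl | rfl
    · simp [Bad, hv2]
    · simp [Bad, ha2]
    · simp [Bad, hb2]
  have hcard3 : ({v, a, b} : Finset V).card = 3 := by
    rw [Finset.card_insert_of_notMem, Finset.card_insert_of_notMem, Finset.card_singleton]
    · simpa using hab
    · simp only [Finset.mem_insert, Finset.mem_singleton, not_or]
      exact ⟨ha.ne, hb.ne⟩
  have h := S5b G h3 c hD hM hB v0 hv0 hb0 v x hv hv2 hx hx1 {v, a, b} hsub3 (by
    intro r hr
    simp only [Finset.mem_insert, Finset.mem_singleton] at hr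
    rcases hr with rfl | rfl | rfl
    · exact Or.inl rfl
    · exact Or.inr ha
    · exact Or.inr hb)
  rw [hcard3] at h
  push_cast at h
  linarith

/-- The vertices of the second class with one neighbour of their own colour that form a triangle
with two vertices of the first class. -/
def Apex (c : V → Bool) : Finset V := univ.filter (fun y => c y = true ∧
  ∃ x s, x ≠ s ∧ c x = false ∧ c s = false ∧ G.Adj y x ∧ G.Adj y s ∧ G.Adj x s)

theorem card_Apex (c : V → Bool) : (Apex G c).card ≤ (G.cliqueFinset 3).card := by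
  classical
  have h : ∀ y ∈ Apex G c, ∃ x s, x ≠ s ∧ c x = false ∧ c s = false ∧ G.Adj y x ∧ G.Adj y s ∧
      G.Adj x s := fun y hy => (Finset.mem_filter.1 hy).2.2
  choose! X S hXS using h
  apply Finset.card_le_card_of_injOn (fun y => {y, X y, S y})
  · intro y hy
    obtain ⟨h1, h2, h3, h4, h5, h6⟩ := hXS y hy
    simp only [Finset.coe_filter, Set.mem_ofPred_eq, SimpleGraph.cliqueFinset, Finset.mem_univ,
      true_and]
    exact SimpleGraph.is3Clique_iff.2 ⟨y, X y, S y, h4, h5, h6, rfl⟩
  · intro y hy y' hy' he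
    have hcy : c y = true := (Finset.mem_filter.1 hy).2.1
    obtain ⟨h1, h2, h3, h4, h5, h6⟩ := hXS y' hy'
    have hm : y ∈ ({y', X y', S y'} : Finset V) := by
      have he' : ({y, X y, S y} : Finset V) = {y', X y', S y'} := he
      rw [← he']; simp
    simp only [Finset.mem_insert, Finset.mem_singleton] at hm
    rcases hm with h | h | h
    · exact h
    · rw [h, h2] at hcy; exact absurd hcy (by simp)
    · rw [h, h3] at hcy; exact absurd hcy (by simp)

include h3 hD hM hv0 hb0 in
/-- If two bad vertices are adjacent, then a vertex of the second class with exactly one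
neighbour of its own colour that is not an apex has at most one neighbour in the first class with
a neighbour of its own colour. -/
theorem S7a (v u : V) (hv : c v = true) (hu : c u = true) (hvu : v ≠ u) (hv2 : 2 ≤ mu G c v)
    (hu2 : 2 ≤ mu G c u) (y x s : V) (hy : c y = true) (hy1 : mu G c y = 1) (hxs : x ≠ s)
    (hx : c x = false) (hx1 : mu G c x = 1) (hs : c s = false) (hs1 : mu G c s = 1)
    (hyx : G.Adj y x) (hys : G.Adj y s) (hnt : ¬ G.Adj x s) : False := by
  have hxy : x ≠ y := hyx.ne'
  have hsy : s ≠ y := hys.ne'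
  have hDc := D_swap c hy hx hD
  have hMc : M G (flip (flip c y) x) = M G c := by
    rw [M_swap G h3 c hy hx, hy1, hx1]
    simp [hyx.symm]
    ring
  have hMc' : ∀ c', D c' = 0 → M G (flip (flip c y) x) ≤ M G c' := by
    intro c' hc'; rw [hMc]; exact hM c' hc'
  -- a bad vertex not adjacent to y
  obtain ⟨r, hr, hr2, hry⟩ : ∃ r, c r = true ∧ 2 ≤ mu G c r ∧ ¬ G.Adj r y := by
    by_contra hcon
    push Not at hcon
    have a1 := hcon v hv hv2
    have a2 := hcon u hu hu2
    have : ({v, u} : Finset V) ⊆ univ.filter (fun t => G.Adj y t ∧ c t = c y) := by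
      intro t ht
      rw [Finset.mem_insert, Finset.mem_singleton] at ht
      rcases ht with rfl | rfl
      · simp [a1.symm, hv, hy]
      · simp [a2.symm, hu, hy]
    have h := Finset.card_le_card this
    rw [Finset.card_pair hvu] at h
    have h' : ((univ.filter (fun t => G.Adj y t ∧ c t = c y)).card : ℤ) = mu G c y := by
      rw [Finset.card_filter, mu]; push_cast; rfl
    have h'' : (2:ℤ) ≤ ((univ.filter (fun t => G.Adj y t ∧ c t = c y)).card : ℤ) := by
      exact_mod_cast h
    rw [h', hy1] at h''
    omega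
  have hrx : ¬ G.Adj r x := by
    intro t
    have := S4 G h3 c hD hM r x hr hr2 hx t.symm
    omega
  have hry' : r ≠ y := by rintro rfl; omega
  have hrx' : r ≠ x := by rintro rfl; rw [hr] at hx; exact absurd hx (by simp)
  have hr3 : flip (flip c y) x r = true := by rw [flip_ne _ hrx', flip_ne _ hry', hr]
  have hr4 : 2 ≤ mu G (flip (flip c y) x) r := by
    rw [mu_flip_ne G _ hrx', mu_flip_ne G c hry']
    simp only [hry, hrx, if_false]
    omega
  have hs3 : flip (flip c y) x s = false := by rw [flip_ne _ (Ne.symm hxs), flip_ne _ hsy, hs]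
  have hs4 := S1 G h3 (flip (flip c y) x) hDc hMc' r hr3 hr4 s hs3
  rw [mu_flip_ne G _ (Ne.symm hxs), mu_flip_ne G c hsy, hs1, hs, hy] at hs4
  have hnt' : ¬ G.Adj s x := fun t => hnt t.symm
  simp [hys.symm, hnt'] at hs4

include h3 hD hM hB hv0 hb0 in
/-- If `G` has at most three triangles, then no two bad vertices are adjacent. -/
theorem S7 (htri : (G.cliqueFinset 3).card ≤ 3) (v u : V) (hv : c v = true) (hu : c u = true)
    (hvu : G.Adj v u) (hv2 : 2 ≤ mu G c v) (hu2 : 2 ≤ mu G c u) : False := by
  have hpair : ({v, u} : Finset V).card = 2 := Finset.card_pair hvu.ne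
  have hsub : ({v, u} : Finset V) ⊆ Bad G c := by
    intro t ht
    simp only [Finset.mem_insert, Finset.mem_singleton] at ht
    rcases ht with rfl | rfl
    · simp [Bad, hv2]
    · simp [Bad, hu2]
  have i1 : ∑ x, (if c x = false ∧ mu G c x = 1 then (1:ℤ) else 0) ≤
      ∑ x, (if c x = false ∧ mu G c x = 1 then g G c x else 0) := by
    apply Finset.sum_le_sum
    intro x _
    by_cases h : c x = false ∧ mu G c x = 1
    · have := S5b G h3 c hD hM hB v0 hv0 hb0 v x hv hv2 h.1 h.2 {v, u} hsub (by
        intro r hr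
        simp only [Finset.mem_insert, Finset.mem_singleton] at hr
        rcases hr with rfl | rfl
        · exact Or.inl rfl
        · exact Or.inr hvu)
      rw [hpair] at this
      simp only [h, and_self, if_true]
      push_cast at this
      linarith
    · simp only [h, if_false]; norm_num
  have i2 : ∑ x, (if c x = false ∧ mu G c x = 1 then g G c x else 0) ≤
      ∑ y, (if c y = true ∧ mu G c y = 1 then (1:ℤ) else 0) +
      ∑ y, (if y ∈ Apex G c then (1:ℤ) else 0) := by
    have e1 : ∑ x, (if c x = false ∧ mu G c x = 1 then g G c x else 0) =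
        ∑ y, ∑ x, (if (c x = false ∧ mu G c x = 1) ∧ G.Adj x y ∧ (c y = true ∧ mu G c y = 1)
          then (1:ℤ) else 0) := by
      rw [Finset.sum_comm]
      apply Finset.sum_congr rfl; intro x _
      by_cases h : c x = false ∧ mu G c x = 1
      · simp only [h, and_self, if_true, g, true_and]
      · simp only [h, if_false, false_and, Finset.sum_const_zero]
    rw [e1, ← Finset.sum_add_distrib]
    apply Finset.sum_le_sum
    intro y _
    by_cases h : c y = true ∧ mu G c y = 1
    · have e4 : (if c y = true ∧ mu G c y = 1 then (1:ℤ) else 0) = 1 := by simp [h]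
      rw [e4]
      by_cases hA : y ∈ Apex G c
      · have e2 : ∑ x, (if (c x = false ∧ mu G c x = 1) ∧ G.Adj x y ∧ (c y = true ∧ mu G c y = 1)
            then (1:ℤ) else 0) ≤ ∑ x, ((if G.Adj y x then (1:ℤ) else 0) - f G c y x) := by
          apply Finset.sum_le_sum
          intro x _
          by_cases ha : G.Adj x y
          · have ha' := ha.symm
            cases hx : c x
            · simp only [f, ha', h.1, hx]
              split_ifs <;> simp_all
            · simp only [f, ha', h.1, hx]
              simp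
          · have ha' : ¬ G.Adj y x := fun t => ha t.symm
            simp [f, ha, ha']
        rw [Finset.sum_sub_distrib, deg_sum G h3 y] at e2
        have e3 : ∑ x, f G c y x = mu G c y := rfl
        rw [e3] at e2
        have e5 := h.2
        simp only [hA, if_true]
        linarith
      · simp only [hA, if_false]
        have e6 : ∑ x, (if (c x = false ∧ mu G c x = 1) ∧ G.Adj x y ∧ (c y = true ∧ mu G c y = 1)
            then (1:ℤ) else 0) = ((univ.filter (fun x => (c x = false ∧ mu G c x = 1) ∧
              G.Adj x y ∧ (c y = true ∧ mu G c y = 1))).card : ℤ) := by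
          rw [Finset.card_filter]; push_cast; rfl
        rw [e6]
        have e7 : (univ.filter (fun x => (c x = false ∧ mu G c x = 1) ∧
              G.Adj x y ∧ (c y = true ∧ mu G c y = 1))).card ≤ 1 := by
          rw [Finset.card_le_one]
          intro x hx s hs
          rw [Finset.mem_filter] at hx hs
          by_contra hxs
          refine S7a G h3 c hD hM v0 hv0 hb0 v u hv hu hvu.ne hv2 hu2 y x s h.1 h.2 hxs
            hx.2.1.1 hx.2.1.2 hs.2.1.1 hs.2.1.2 hx.2.2.1.symm hs.2.2.1.symm ?_
          intro hadj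
          apply hA
          rw [Apex, Finset.mem_filter]
          exact ⟨Finset.mem_univ _, h.1, x, s, hxs, hx.2.1.1, hs.2.1.1, hx.2.2.1.symm,
            hs.2.2.1.symm, hadj⟩
        have : ((univ.filter (fun x => (c x = false ∧ mu G c x = 1) ∧
              G.Adj x y ∧ (c y = true ∧ mu G c y = 1))).card : ℤ) ≤ 1 := by exact_mod_cast e7
        linarith
    · have : ∑ x, (if (c x = false ∧ mu G c x = 1) ∧ G.Adj x y ∧ (c y = true ∧ mu G c y = 1)
            then (1:ℤ) else 0) = 0 := by
        apply Finset.sum_eq_zero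
        intro x _
        simp [h]
      rw [this]
      split_ifs <;> norm_num
  have i3 : ∑ w, sg (c w) * mu G c w = ∑ y, (if c y = true ∧ mu G c y = 1 then (1:ℤ) else 0) +
      2 * ∑ w, (if 2 ≤ mu G c w then (1:ℤ) else 0) -
      ∑ x, (if c x = false ∧ mu G c x = 1 then (1:ℤ) else 0) := by
    rw [Finset.mul_sum, ← Finset.sum_add_distrib, ← Finset.sum_sub_distrib]
    apply Finset.sum_congr rfl
    intro w _
    have h4 := mu_nonneg G c w
    cases hw : c w
    · have h1 := S1 G h3 c hD hM v0 hv0 hb0 w hw
      have h5 : ¬ (2 ≤ mu G c w) := by omega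
      simp only [h5, if_false, sg]
      by_cases h6 : mu G c w = 1
      · simp [h6]
      · have h7 : mu G c w = 0 := by omega
        simp [h7]
    · have h1 := S3 G h3 c hD hM v0 hv0 hb0 w hw
      by_cases h6 : mu G c w = 1
      · simp [h6, sg]
      · by_cases h7 : mu G c w = 0
        · simp [h7, sg]
        · have h8 : mu G c w = 2 := by omega
          simp [h8, sg]
  rw [signed G h3 c hD] at i3
  have i4 : (2:ℤ) ≤ ∑ w, (if 2 ≤ mu G c w then (1:ℤ) else 0) := by
    have e : ∑ w, (if 2 ≤ mu G c w then (1:ℤ) else 0) = ((Bad G c).card : ℤ) := by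
      rw [Bad, Finset.card_filter]; push_cast; rfl
    rw [e]
    have := Finset.card_le_card hsub
    rw [hpair] at this
    exact_mod_cast this
  have i5 : ∑ y, (if y ∈ Apex G c then (1:ℤ) else 0) ≤ 3 := by
    have e : ∑ y, (if y ∈ Apex G c then (1:ℤ) else 0) = ((Apex G c).card : ℤ) := by
      rw [Finset.sum_ite_mem, Finset.univ_inter]
      simp
    rw [e]
    exact_mod_cast (card_Apex G c).trans htri
  linarith

end Main

/-- The graph of the edges of `G` whose ends have the same colour. -/
def mono (c : V → Bool) : SimpleGraph V := G ⊓ SimpleGraph.fromRel (fun a b : V => c a = c b)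

omit [Fintype V] [DecidableEq V] [DecidableRel G.Adj] in
theorem mono_adj (c : V → Bool) (v w : V) : (mono G c).Adj v w ↔ G.Adj v w ∧ c w = c v := by
  simp only [mono, SimpleGraph.inf_adj, SimpleGraph.fromRel_adj]
  constructor
  · rintro ⟨h1, _, h2 | h2⟩
    · exact ⟨h1, h2.symm⟩
    · exact ⟨h1, h2⟩
  · rintro ⟨h1, h2⟩
    exact ⟨h1, h1.ne, Or.inr h2⟩

/-- The neighbours of the same colour. -/
def Nb (c : V → Bool) (v : V) : Finset V := univ.filter (fun u => G.Adj v u ∧ c u = c v)

theorem card_Nb (c : V → Bool) (v : V) : ((Nb G c v).card : ℤ) = mu G c v := by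
  rw [Nb, Finset.card_filter, mu]
  push_cast
  rfl

theorem mem_Nb (c : V → Bool) (v u : V) : u ∈ Nb G c v ↔ (mono G c).Adj v u := by
  rw [mono_adj, Nb, Finset.mem_filter]; simp

omit [Fintype V] [DecidableEq V] [DecidableRel G.Adj] in
theorem reach_closed (c : V → Bool) (S : Finset V) (v : V) (hv : v ∈ S)
    (hS : ∀ s ∈ S, ∀ t, (mono G c).Adj s t → t ∈ S) (k : ℕ) (hk : S.card ≤ k) :
    {w | (mono G c).Reachable v w}.ncard ≤ k := by
  have hsub : {w | (mono G c).Reachable v w} ⊆ (S : Set V) := by
    rintro w ⟨p⟩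
    induction p with
    | nil => exact hv
    | cons h _ ih => exact ih (hS _ hv _ h)
  calc {w | (mono G c).Reachable v w}.ncard ≤ (S : Set V).ncard :=
        Set.ncard_le_ncard hsub S.finite_toSet
    _ = S.card := Set.ncard_coe_finset S
    _ ≤ k := hk

theorem Nb_one (c : V → Bool) (v u : V) (hu : u ∈ Nb G c v) (h : mu G c v ≤ 1) (t : V)
    (ht : (mono G c).Adj v t) : t = u := by
  rw [← card_Nb] at h
  have h' : (Nb G c v).card ≤ 1 := by exact_mod_cast h
  exact Finset.card_le_one.1 h' t ((mem_Nb G c v t).2 ht) u hu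

theorem Nb_two (c : V → Bool) (v u : V) (hu : u ∈ Nb G c v) (h : mu G c v = 2) :
    ∃ b, b ≠ u ∧ b ∈ Nb G c v ∧ ∀ t, (mono G c).Adj v t → t = u ∨ t = b := by
  rw [← card_Nb] at h
  have h' : (Nb G c v).card = 2 := by exact_mod_cast h
  obtain ⟨x, y, hxy, he⟩ := Finset.card_eq_two.1 h'
  rw [he, Finset.mem_insert, Finset.mem_singleton] at hu
  rcases hu with rfl | rfl
  · refine ⟨y, hxy.symm, by rw [he]; simp, ?_⟩
    intro t ht
    have := (mem_Nb G c v t).2 ht
    rw [he, Finset.mem_insert, Finset.mem_singleton] at this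
    exact this
  · refine ⟨x, hxy, by rw [he]; simp, ?_⟩
    intro t ht
    have := (mem_Nb G c v t).2 ht
    rw [he, Finset.mem_insert, Finset.mem_singleton] at this
    exact this.symm

theorem comp_two (c : V → Bool) (b : Bool) (h1 : ∀ w, c w = b → mu G c w ≤ 1) (v : V)
    (hv : c v = b) : {w | (mono G c).Reachable v w}.ncard ≤ 2 := by
  by_cases he : (Nb G c v).Nonempty
  · obtain ⟨a, ha⟩ := he
    have hva := (mem_Nb G c v a).1 ha
    have hca : c a = b := by rw [((mono_adj G c v a).1 hva).2, hv]
    refine reach_closed G c {v, a} v (by simp) ?_ 2 Finset.card_le_two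
    intro s hs t hst
    rw [Finset.mem_insert, Finset.mem_singleton] at hs
    rcases hs with rfl | rfl
    · rw [Nb_one G c _ a ha (h1 _ hv) t hst]; simp
    · rw [Nb_one G c _ v ((mem_Nb G c _ v).2 hva.symm) (h1 _ hca) t hst]; simp
  · refine reach_closed G c {v} v (by simp) ?_ 2 (by simp)
    intro s hs t hst
    rw [Finset.mem_singleton] at hs
    subst hs
    exact absurd ⟨t, (mem_Nb G c _ t).2 hst⟩ he

section Comp

variable (c : V → Bool) (h2 : ∀ v, c v = true → mu G c v ≤ 2)
  (h6 : ∀ v a b, c v = true → G.Adj v a → G.Adj v b → a ≠ b → c a = true → c b = true →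
    2 ≤ mu G c v → 2 ≤ mu G c a → 2 ≤ mu G c b → False)

include h2 h6 in
/-- The component of an end vertex. -/
theorem comp_end (v : V) (hv : c v = true) (h1 : mu G c v ≤ 1) :
    ∃ S : Finset V, v ∈ S ∧ (∀ s ∈ S, ∀ t, (mono G c).Adj s t → t ∈ S) ∧ S.card ≤ 4 := by
  by_cases he : (Nb G c v).Nonempty
  swap
  · refine ⟨{v}, by simp, ?_, by simp⟩
    intro s hs t hst
    rw [Finset.mem_singleton] at hs
    subst hs
    exact absurd ⟨t, (mem_Nb G c _ t).2 hst⟩ he
  obtain ⟨a, ha⟩ := he
  have hva := (mem_Nb G c v a).1 ha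
  have hca : c a = true := by rw [((mono_adj G c v a).1 hva).2, hv]
  have hav : v ∈ Nb G c a := (mem_Nb G c a v).2 hva.symm
  have nv := Nb_one G c v a ha h1
  by_cases ha1 : mu G c a ≤ 1
  · have na := Nb_one G c a v hav ha1
    refine ⟨{v, a}, by simp, ?_, (Finset.card_le_two).trans (by norm_num)⟩
    intro s hs t hst
    rw [Finset.mem_insert, Finset.mem_singleton] at hs
    rcases hs with rfl | rfl
    · rw [nv t hst]; simp
    · rw [na t hst]; simp
  have ha2 : mu G c a = 2 := by have := h2 a hca; omega
  obtain ⟨b, hbv, hb, na⟩ := Nb_two G c a v hav ha2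
  have hab := (mem_Nb G c a b).1 hb
  have hcb : c b = true := by rw [((mono_adj G c a b).1 hab).2, hca]
  have hba : a ∈ Nb G c b := (mem_Nb G c b a).2 hab.symm
  by_cases hb1 : mu G c b ≤ 1
  · have nb := Nb_one G c b a hba hb1
    refine ⟨{v, a, b}, by simp, ?_, (Finset.card_le_three).trans (by norm_num)⟩
    intro s hs t hst
    simp only [Finset.mem_insert, Finset.mem_singleton] at hs ⊢
    rcases hs with rfl | rfl | rfl
    · rw [nv t hst]; simp
    · rcases na t hst with h | h <;> simp [h]
    · rw [nb t hst]; simp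
  have hb2 : mu G c b = 2 := by have := h2 b hcb; omega
  obtain ⟨d, hda, hd, nb⟩ := Nb_two G c b a hba hb2
  have hbd := (mem_Nb G c b d).1 hd
  have hcd : c d = true := by rw [((mono_adj G c b d).1 hbd).2, hcb]
  have hdb : b ∈ Nb G c d := (mem_Nb G c d b).2 hbd.symm
  have hd1 : mu G c d ≤ 1 := by
    by_contra hcon
    exact h6 b a d hcb ((mono_adj G c a b).1 hab).1.symm ((mono_adj G c b d).1 hbd).1
      hda.symm hca hcd (by omega) (by omega) (by omega)
  have nd := Nb_one G c d b hdb hd1
  refine ⟨{v, a, b, d}, by simp, ?_, Finset.card_le_four⟩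
  intro s hs t hst
  simp only [Finset.mem_insert, Finset.mem_singleton] at hs ⊢
  rcases hs with rfl | rfl | rfl | rfl
  · rw [nv t hst]; simp
  · rcases na t hst with h | h <;> simp [h]
  · rcases nb t hst with h | h <;> simp [h]
  · rw [nd t hst]; simp

include h2 h6 in
theorem comp_four (v : V) (hv : c v = true) :
    {w | (mono G c).Reachable v w}.ncard ≤ 4 := by
  by_cases h1 : mu G c v ≤ 1
  · obtain ⟨S, hS, hcl, hk⟩ := comp_end G c h2 h6 v hv h1
    exact reach_closed G c S v hS hcl 4 hk
  have hm : mu G c v = 2 := by have := h2 v hv; omega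
  have h' : (Nb G c v).card = 2 := by
    have := card_Nb G c v; rw [hm] at this; exact_mod_cast this
  obtain ⟨x, y, hxy, he⟩ := Finset.card_eq_two.1 h'
  have hx := (mem_Nb G c v x).1 (by rw [he]; simp)
  have hy := (mem_Nb G c v y).1 (by rw [he]; simp)
  have hcx : c x = true := by rw [((mono_adj G c v x).1 hx).2, hv]
  have hcy : c y = true := by rw [((mono_adj G c v y).1 hy).2, hv]
  have key : ∀ z, (mono G c).Adj v z → c z = true → mu G c z ≤ 1 →
      {w | (mono G c).Reachable v w}.ncard ≤ 4 := by
    intro z hz hcz hz1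
    obtain ⟨S, hS, hcl, hk⟩ := comp_end G c h2 h6 z hcz hz1
    exact reach_closed G c S v (hcl z hS v hz.symm) hcl 4 hk
  by_cases hx1 : mu G c x ≤ 1
  · exact key x hx hcx hx1
  by_cases hy1 : mu G c y ≤ 1
  · exact key y hy hcy hy1
  exact absurd (h6 v x y hv ((mono_adj G c v x).1 hx).1 ((mono_adj G c v y).1 hy).1 hxy hcx hcy
    (by omega) (by omega) (by omega)) id

end Comp

theorem acyclic (c : V → Bool)
    (hf : ∀ v a, (mono G c).Adj v a → mu G c v ≤ 1 ∨ c v = true)
    (h6 : ∀ v a b, c v = true → G.Adj v a → G.Adj v b → a ≠ b → c a = true → c b = true →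
      2 ≤ mu G c v → 2 ≤ mu G c a → 2 ≤ mu G c b → False) : (mono G c).IsAcyclic := by
  intro u p hp
  have key : ∀ w ∈ p.support, ∃ a b, a ≠ b ∧ a ∈ p.support ∧ b ∈ p.support ∧
      (mono G c).Adj w a ∧ (mono G c).Adj w b := by
    intro w hw
    have h2 := hp.ncard_neighborSet_toSubgraph_eq_two hw
    obtain ⟨a, b, hab, he⟩ := Set.ncard_eq_two.1 h2
    have ha : a ∈ p.toSubgraph.neighborSet w := by rw [he]; simp
    have hb : b ∈ p.toSubgraph.neighborSet w := by rw [he]; simp
    rw [SimpleGraph.Subgraph.mem_neighborSet] at ha hb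
    refine ⟨a, b, hab, ?_, ?_, ha.adj_sub, hb.adj_sub⟩
    · exact (SimpleGraph.Walk.mem_verts_toSubgraph p).1 ha.snd_mem
    · exact (SimpleGraph.Walk.mem_verts_toSubgraph p).1 hb.snd_mem
  have deg : ∀ w ∈ p.support, 2 ≤ mu G c w := by
    intro w hw
    obtain ⟨a, b, hab, _, _, ha, hb⟩ := key w hw
    rw [← card_Nb]
    have : ({a, b} : Finset V) ⊆ Nb G c w := by
      intro t ht
      rw [Finset.mem_insert, Finset.mem_singleton] at ht
      rcases ht with rfl | rfl
      · exact (mem_Nb G c w _).2 ha
      · exact (mem_Nb G c w _).2 hb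
    have h := Finset.card_le_card this
    rw [Finset.card_pair hab] at h
    exact_mod_cast h
  have hu := p.start_mem_support
  obtain ⟨a, b, hab, ha, hb, hua, hub⟩ := key u hu
  have hcu : c u = true := by
    rcases hf u a hua with h | h
    · have := deg u hu; omega
    · exact h
  have hca : c a = true := by rw [((mono_adj G c u a).1 hua).2, hcu]
  have hcb : c b = true := by rw [((mono_adj G c u b).1 hub).2, hcu]
  exact h6 u a b hcu ((mono_adj G c u a).1 hua).1 ((mono_adj G c u b).1 hub).1 hab hca hcb
    (deg u hu) (deg a ha) (deg b hb)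

theorem D_card (c : V → Bool) : D c = ((univ.filter (fun v => c v = true)).card : ℤ) -
    ((univ.filter (fun v => c v = false)).card : ℤ) := by
  rw [Finset.card_filter, Finset.card_filter, D]
  push_cast
  rw [← Finset.sum_sub_distrib]
  apply Finset.sum_congr rfl
  intro w _
  cases c w <;> simp [sg]

theorem D_zero (c : V → Bool) : D c = 0 ↔ (univ.filter (fun v => c v = true)).card =
    (univ.filter (fun v => c v = false)).card := by
  rw [D_card]
  constructor
  · intro h
    have : ((univ.filter (fun v => c v = true)).card : ℤ) =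
      ((univ.filter (fun v => c v = false)).card : ℤ) := by linarith
    exact_mod_cast this
  · intro h; rw [h]; ring

theorem M_card (c : V → Bool) : M G c =
    ((univ.filter (fun p : V × V => G.Adj p.1 p.2 ∧ c p.2 = c p.1)).card : ℤ) := by
  rw [Finset.card_filter, M]
  push_cast
  rw [Fintype.sum_prod_type]
  rfl

theorem exists_bal (h3 : G.IsRegularOfDegree 3) : ∃ c : V → Bool, D c = 0 := by
  have h := G.sum_degrees_eq_twice_card_edges
  have h' : ∑ v, G.degree v = 3 * Fintype.card V := by
    rw [Finset.sum_congr rfl (fun v _ => h3 v)]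
    simp [mul_comm]
  rw [h'] at h
  obtain ⟨k, hk⟩ : ∃ k, Fintype.card V = 2 * k := by
    have : 2 ∣ 3 * Fintype.card V := ⟨_, h⟩
    have h2 : 2 ∣ Fintype.card V := by omega
    exact h2
  obtain ⟨S, _, hS⟩ := Finset.exists_subset_card_eq (s := (univ : Finset V)) (n := k)
    (by rw [Finset.card_univ]; omega)
  refine ⟨fun v => decide (v ∈ S), ?_⟩
  rw [D_zero]
  have e1 : univ.filter (fun v => decide (v ∈ S) = true) = S := by ext v; simp
  have e2 : univ.filter (fun v => decide (v ∈ S) = false) = univ \ S := by ext v; simp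
  rw [e1, e2, Finset.card_sdiff_of_subset (Finset.subset_univ S), hS, Finset.card_univ]
  omega

theorem mu_compl (c : V → Bool) (v : V) : mu G (fun v => !c v) v = mu G c v := by
  unfold mu f
  apply Finset.sum_congr rfl
  intro u _
  simp

omit [DecidableEq V] in
theorem D_compl (c : V → Bool) : D (fun v => !c v) = - D c := by
  unfold D
  rw [← Finset.sum_neg_distrib]
  apply Finset.sum_congr rfl
  intro u _
  cases h : c u <;> simp [sg, h]

theorem M_compl (c : V → Bool) : M G (fun v => !c v) = M G c := by
  unfold M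
  exact Finset.sum_congr rfl (fun w _ => mu_compl G c w)

theorem Bad_compl (c : V → Bool) : Bad G (fun v => !c v) = Bad G c := by
  unfold Bad
  ext w
  rw [Finset.mem_filter, Finset.mem_filter, mu_compl]

section Comp3

variable (c : V → Bool) (h2 : ∀ v, c v = true → mu G c v ≤ 2)
  (h7 : ∀ v u, c v = true → c u = true → G.Adj v u → 2 ≤ mu G c v → 2 ≤ mu G c u → False)

include h2 h7 in
/-- The component of an end vertex, when no two bad vertices are adjacent. -/
theorem comp_end3 (v : V) (hv : c v = true) (h1 : mu G c v ≤ 1) :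
    ∃ S : Finset V, v ∈ S ∧ (∀ s ∈ S, ∀ t, (mono G c).Adj s t → t ∈ S) ∧ S.card ≤ 3 := by
  by_cases he : (Nb G c v).Nonempty
  swap
  · refine ⟨{v}, by simp, ?_, by simp⟩
    intro s hs t hst
    rw [Finset.mem_singleton] at hs
    subst hs
    exact absurd ⟨t, (mem_Nb G c _ t).2 hst⟩ he
  obtain ⟨a, ha⟩ := he
  have hva := (mem_Nb G c v a).1 ha
  have hca : c a = true := by rw [((mono_adj G c v a).1 hva).2, hv]
  have hav : v ∈ Nb G c a := (mem_Nb G c a v).2 hva.symm
  have nv := Nb_one G c v a ha h1
  by_cases ha1 : mu G c a ≤ 1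
  · have na := Nb_one G c a v hav ha1
    refine ⟨{v, a}, by simp, ?_, (Finset.card_le_two).trans (by norm_num)⟩
    intro s hs t hst
    rw [Finset.mem_insert, Finset.mem_singleton] at hs
    rcases hs with rfl | rfl
    · rw [nv t hst]; simp
    · rw [na t hst]; simp
  have ha2 : mu G c a = 2 := by have := h2 a hca; omega
  obtain ⟨b, hbv, hb, na⟩ := Nb_two G c a v hav ha2
  have hab := (mem_Nb G c a b).1 hb
  have hcb : c b = true := by rw [((mono_adj G c a b).1 hab).2, hca]
  have hba : a ∈ Nb G c b := (mem_Nb G c b a).2 hab.symm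
  have hb1 : mu G c b ≤ 1 := by
    by_contra hcon
    exact h7 a b hca hcb ((mono_adj G c a b).1 hab).1 (by omega) (by omega)
  have nb := Nb_one G c b a hba hb1
  refine ⟨{v, a, b}, by simp, ?_, Finset.card_le_three⟩
  intro s hs t hst
  simp only [Finset.mem_insert, Finset.mem_singleton] at hs ⊢
  rcases hs with rfl | rfl | rfl
  · rw [nv t hst]; simp
  · rcases na t hst with h | h <;> simp [h]
  · rw [nb t hst]; simp

include h2 h7 in
theorem comp_three (v : V) (hv : c v = true) :
    {w | (mono G c).Reachable v w}.ncard ≤ 3 := by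
  by_cases h1 : mu G c v ≤ 1
  · obtain ⟨S, hS, hcl, hk⟩ := comp_end3 G c h2 h7 v hv h1
    exact reach_closed G c S v hS hcl 3 hk
  have hm : mu G c v = 2 := by have := h2 v hv; omega
  have h' : (Nb G c v).card = 2 := by
    have := card_Nb G c v; rw [hm] at this; exact_mod_cast this
  obtain ⟨x, y, hxy, he⟩ := Finset.card_eq_two.1 h'
  have hx := (mem_Nb G c v x).1 (by rw [he]; simp)
  have hcx : c x = true := by rw [((mono_adj G c v x).1 hx).2, hv]
  have hx1 : mu G c x ≤ 1 := by
    by_contra hcon
    exact h7 v x hv hcx ((mono_adj G c v x).1 hx).1 (by omega) (by omega)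
  obtain ⟨S, hS, hcl, hk⟩ := comp_end3 G c h2 h7 x hcx hx1
  exact reach_closed G c S v (hcl x hS v hx.symm) hcl 3 hk

end Comp3

theorem goal_of (h3 : G.IsRegularOfDegree 3) (htri : (G.cliqueFinset 3).card ≤ 3)
    (c : V → Bool) (hD : D c = 0)
    (hM : ∀ c', D c' = 0 → M G c ≤ M G c')
    (hB : ∀ c', D c' = 0 → M G c' = M G c → (Bad G c).card ≤ (Bad G c').card)
    (v0 : V) (hv0 : c v0 = true) (hb0 : 2 ≤ mu G c v0) :
    (∀ v, c v = false → {w | (mono G c).Reachable v w}.ncard ≤ 2) ∧
    (∀ v, c v = true → {w | (mono G c).Reachable v w}.ncard ≤ 3) ∧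
    (∀ v, mu G c v ≤ 2) ∧ (mono G c).IsAcyclic := by
  have s1 := S1 G h3 c hD hM v0 hv0 hb0
  have s3 := S3 G h3 c hD hM v0 hv0 hb0
  have s6 := S6 G h3 c hD hM hB v0 hv0 hb0
  have s7 := S7 G h3 c hD hM hB v0 hv0 hb0 htri
  refine ⟨fun v hv => comp_two G c false s1 v hv, fun v hv => comp_three G c s3 s7 v hv, ?_, ?_⟩
  · intro v
    cases hv : c v
    · have := s1 v hv; omega
    · exact s3 v hv
  · refine acyclic G c ?_ s6
    intro v a _
    cases hv : c v
    · exact Or.inl (s1 v hv)
    · exact Or.inr rfl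

theorem goal_of' (c : V → Bool) (h1 : ∀ v, mu G c v ≤ 1) :
    (∀ v, c v = false → {w | (mono G c).Reachable v w}.ncard ≤ 2) ∧
    (∀ v, c v = true → {w | (mono G c).Reachable v w}.ncard ≤ 3) ∧
    (∀ v, mu G c v ≤ 2) ∧ (mono G c).IsAcyclic := by
  refine ⟨fun v hv => comp_two G c false (fun w _ => h1 w) v hv,
    fun v hv => (comp_two G c true (fun w _ => h1 w) v hv).trans (by norm_num),
    fun v => (h1 v).trans (by norm_num), acyclic G c (fun v _ _ => Or.inl (h1 v)) ?_⟩
  intro v a b _ _ _ _ _ _ hv2 _ _
  have := h1 v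
  omega

theorem final (h3 : G.IsRegularOfDegree 3) (htri : (G.cliqueFinset 3).card ≤ 3) :
    ∃ c, D c = 0 ∧ (∀ c', D c' = 0 → M G c ≤ M G c') ∧
      ((∀ v, c v = false → {w | (mono G c).Reachable v w}.ncard ≤ 2) ∧
      (∀ v, c v = true → {w | (mono G c).Reachable v w}.ncard ≤ 3) ∧
      (∀ v, mu G c v ≤ 2) ∧ (mono G c).IsAcyclic) := by
  obtain ⟨cb, hcb⟩ := exists_bal G h3
  obtain ⟨c0, hc0, hmin0⟩ := Finset.exists_min_image
    (univ.filter (fun c : V → Bool => D c = 0)) (M G) ⟨cb, by simp [hcb]⟩
  rw [Finset.mem_filter] at hc0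
  obtain ⟨c1, hc1, hmin1⟩ := Finset.exists_min_image
    (univ.filter (fun c : V → Bool => D c = 0 ∧ M G c = M G c0)) (fun c => (Bad G c).card)
    ⟨c0, by simp [hc0.2]⟩
  rw [Finset.mem_filter] at hc1
  have hM1 : ∀ c', D c' = 0 → M G c1 ≤ M G c' := by
    intro c' hc'
    rw [hc1.2.2]
    exact hmin0 c' (by simp [hc'])
  have hB1 : ∀ c', D c' = 0 → M G c' = M G c1 → (Bad G c1).card ≤ (Bad G c').card := by
    intro c' hc' hm
    exact hmin1 c' (by simp [hc', hm, hc1.2.2])
  by_cases hb : ∃ v0, 2 ≤ mu G c1 v0
  · obtain ⟨v0, hv0⟩ := hb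
    cases hc : c1 v0
    · refine ⟨fun v => !c1 v, by rw [D_compl, hc1.2.1]; rfl, ?_, ?_⟩
      · intro c' hc'; rw [M_compl]; exact hM1 c' hc'
      · refine goal_of G h3 htri (fun v => !c1 v) (by rw [D_compl, hc1.2.1]; rfl) ?_ ?_ v0
          (by simp [hc]) (by rw [mu_compl]; exact hv0)
        · intro c' hc'; rw [M_compl]; exact hM1 c' hc'
        · intro c' hc' hm; rw [M_compl] at hm; rw [Bad_compl]; exact hB1 c' hc' hm
    · exact ⟨c1, hc1.2.1, hM1, goal_of G h3 htri c1 hc1.2.1 hM1 hB1 v0 hc hv0⟩
  · push Not at hb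
    exact ⟨c1, hc1.2.1, hM1, goal_of' G c1 (fun v => by have := hb v; omega)⟩

end Pool.Agent.H153.Bisect
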